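import Pool.Agent.Sgs.Hn

/-!
# Random differences and sets with singular higher correlations: progressions of all lengths

Put each `n` in `S` independently with probability `p n`, where `n * p n` tends to infinity.  Almost surely, the
following holds for all `r ≥ 1` and all sets `A` of naturals at once.  Let `A` have density `δ` along `N_k → ∞`, and for a
finite nonempty set `K` of naturals let `A_K = {x : x + a ∈ A for all a ∈ K}`.  Suppose that for `|K| ≤ 2^(r-1)` the set
`A_K` has correlations `γ n = lim #{x < N_k : x ∈ A_K, x + n ∈ A_K} / N_k = (γ 0)² + ∫ e(n t) dσ(t)` with a finite measure `σ`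
that has no atoms at the rational points, and that, for `|K| ≤ 2^(r-2)`, has no atoms at all and is singular with respect
to Lebesgue measure.  Then for every `ε > 0` there are arbitrarily large `d` in `S` such that
`#{x < N_k : x, x + d, .., x + r d ∈ A} > (δ^(r+1) - ε) N_k` for infinitely many `k`.

Idea: almost surely the weights `1_S(d) / (d p(d))` are close to `1/d` on every block `[2^j, 4^j]`, uniformly in all
frequencies.  By induction on the number of terms, the weighted averages of `∫ f_0 f_1∘T^d ⋯ f_r∘T^(rd)` tend to the product of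
the integrals.  For a function `f` with singular spectral measure the average is shown to be small by looking at
all its twists by characters at once: the averages of `|∑ a_p (f_0)_p ⋯ |²` over two of three groups of slots are
computed by the induction hypothesis, applied to the functions `f∘T^p · conj (f∘T^q)`; this gives three bounds for a measure
on `{s + t + u = 0}`, and such a measure vanishes if one of its marginals is singular without atoms.
-/

set_option autoImplicit false

open Filter MeasureTheory ProbabilityTheory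
open scoped Topology

namespace Pool.Agent.Results.MP_24534d_co.HigherCorrelations

/-- Put each `n` in `S` independently with probability `p n`, where `n * p n → ∞`.  Almost surely, for every `r ≥ 1`, every
set `A` of naturals and every sequence `N_k → ∞` along which `A` has density `δ`: if for every finite nonempty `K`
with at most `2^(r-1)` elements the correlations of `A_K = {x : x + K ⊆ A}` along `N_k` exist and are
`γ n = (γ 0)² + ∫ e(n t) dσ(t)`, `σ` a finite measure on the circle without atoms at points of finite order, and moreover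
singular and without atoms if `2 |K| ≤ 2^(r-1)`, then for all `ε > 0` and `m` there is `d > m` in `S` such that for infinitely
many `k` more than `(δ^(r+1) - ε) N_k` of the `x < N_k` satisfy `x, x + d, .., x + r d ∈ A`. -/
theorem result :
    ∀ (Ω : Type) [MeasurableSpace Ω] (P : Measure Ω) [IsProbabilityMeasure P]
      (p : ℕ → ℝ) (E : ℕ → Set Ω),
      (∀ n, 0 ≤ p n ∧ p n ≤ 1) →
      Tendsto (fun n : ℕ => (n : ℝ) * p n) atTop atTop →
      (∀ n, MeasurableSet (E n)) →
      iIndepSet E P →
      (∀ n, P (E n) = ENNReal.ofReal (p n)) →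
      ∀ᵐ ω ∂P, ∀ (r : ℕ) (A : Set ℕ) (N : ℕ → ℕ) (δ : ℝ), 1 ≤ r → Tendsto N atTop atTop →
        Tendsto (fun k : ℕ => (({x | x ∈ A ∧ x < N k}.ncard : ℝ)) / (N k : ℝ)) atTop (𝓝 δ) →
        (∀ K : Finset ℕ, K.Nonempty → K.card ≤ 2 ^ (r - 1) →
          ∃ (γ : ℕ → ℝ) (σ : Measure (AddCircle (1 : ℝ))), IsFiniteMeasure σ ∧
            (∀ n : ℕ, Tendsto (fun k : ℕ =>
              (({x | (∀ a ∈ K, x + a ∈ A ∧ x + n + a ∈ A) ∧ x < N k}.ncard : ℝ)) / (N k : ℝ)) atTop (𝓝 (γ n))) ∧
            (∀ n : ℕ, (γ n : ℂ) = (γ 0 : ℂ) ^ 2 + ∫ t, fourier (n : ℤ) t ∂σ) ∧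
            (∀ q : ℕ, 0 < q → ∀ t : AddCircle (1 : ℝ), q • t = 0 → σ {t} = 0) ∧
            (2 * K.card ≤ 2 ^ (r - 1) →
              σ ⟂ₘ (volume : Measure (AddCircle (1 : ℝ))) ∧ ∀ t, σ {t} = 0)) →
        ∀ ε : ℝ, 0 < ε → ∀ m : ℕ, ∃ d : ℕ, m < d ∧ ω ∈ E d ∧
          ∃ᶠ k : ℕ in atTop, (δ ^ (r + 1) - ε) * (N k : ℝ)
            < (({x | (∀ i : ℕ, i ≤ r → x + i * d ∈ A) ∧ x < N k}.ncard : ℝ)) := by
  intro Ω _ P _ p E hp hpt hE hi hμ
  exact Pool.Agent.Sgs.finC Ω P p E hp hpt hE hi hμ

end Pool.Agent.Results.MP_24534d_co.HigherCorrelations
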