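import Pool.Agent.Sgs.Main2

/-!
# Random differences and sets with nearly singular correlation measure

Put each `n` in `S` independently with probability `p n`, where `n * p n` tends to infinity.  For every `δ > 0` there is a
constant `a > 0`, which depends on `δ` only, such that almost surely the following holds for all sets `A` of naturals at
once.  Let the correlations `γ n = lim #{x < N_k : x ∈ A, x + n ∈ A} / N_k` exist along some sequence `N_k → ∞` (every
set has such sequences), let `γ 0 ≥ δ` (this is the density along the sequence), and let `σ` be the measure on the circle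
with Fourier coefficients `γ n`.  If the absolutely continuous part of `σ` has mass at most `a`, then `A` contains
`x, x + d, x + 2 d` with arbitrarily large `d` in `S`.

Idea: Furstenberg's correspondence, then the ergodic decomposition, to get an ergodic system and a set whose spectral
measure is nearly singular.  Almost surely the weights `1_S(d) / (d p(d))` are close to `1/d` on every block
`[2^j, 4^j]`, uniformly in all frequencies; this suffices for products of two functions, and (B. Host) for
products of three functions, one of them with a singular spectral measure without atoms.  The large atoms give the main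
term `μ(A)³`; the part without atoms contributes at most its absolutely continuous mass; the many small atoms
are bounded by means of the ergodicity (eigenfunctions have constant modulus) and a pigeonhole argument over the
sizes of the atoms, which makes the constant depend on `δ` only.
-/

set_option autoImplicit false

open Filter MeasureTheory ProbabilityTheory
open scoped Topology

namespace Pool.Agent.Results.MP_24534d_co.NearlySingular

/-- Put each `n` in `S` independently with probability `p n`, where `n * p n → ∞`.  For every `δ > 0` there is `a > 0`
(depending on `δ` only) such that almost surely every set `A` of naturals which along some sequence `N_k → ∞` has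
density `γ 0 ≥ δ` and correlations `γ n`, `n ≥ 0`, that are the Fourier coefficients of a finite measure `σ` on the
circle, with `σ (complement of Z) ≤ a` for some Lebesgue null set `Z`, contains `x, x + d, x + 2 d` with arbitrarily large
`d` in `S`. -/
theorem result :
    ∀ δ : ℝ, 0 < δ → ∃ a : ℝ, 0 < a ∧
      ∀ (Ω : Type) [MeasurableSpace Ω] (P : Measure Ω) [IsProbabilityMeasure P]
        (p : ℕ → ℝ) (E : ℕ → Set Ω),
        (∀ n, 0 ≤ p n ∧ p n ≤ 1) →
        Tendsto (fun n : ℕ => (n : ℝ) * p n) atTop atTop →
        (∀ n, MeasurableSet (E n)) →
        iIndepSet E P →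
        (∀ n, P (E n) = ENNReal.ofReal (p n)) →
        ∀ᵐ ω ∂P, ∀ (A : Set ℕ) (N : ℕ → ℕ) (γ : ℕ → ℝ) (σ : Measure (AddCircle (1 : ℝ))),
          Tendsto N atTop atTop →
          (∀ n : ℕ, Tendsto (fun k : ℕ => (({x | x ∈ A ∧ x + n ∈ A ∧ x < N k}.ncard : ℝ)) / (N k : ℝ)) atTop
            (𝓝 (γ n))) →
          δ ≤ γ 0 → IsFiniteMeasure σ → (∀ n : ℕ, (γ n : ℂ) = ∫ t, fourier (n : ℤ) t ∂σ) →
          (∃ Z : Set (AddCircle (1 : ℝ)), MeasurableSet Z ∧ volume Z = 0 ∧ (σ Zᶜ).toReal ≤ a) →
          ∀ m : ℕ, ∃ x d : ℕ, m < d ∧ ω ∈ E d ∧ x ∈ A ∧ x + d ∈ A ∧ x + 2 * d ∈ A :=
  fun δ hδ => Pool.Agent.Sgs.finNp δ hδ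

end Pool.Agent.Results.MP_24534d_co.NearlySingular
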