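import Pool.Agent.RDf.Main

/-!
# Random sets of differences at the optimal sparsity

Put each `n` in `S` independently with probability `p n`, where `n * p n` tends to infinity.  Almost surely,
every set of naturals of upper density more than `2/5` contains a three term progression with difference
in `S`; for four terms upper density more than `4/7` is enough, for five terms more than `2/3`, and for
`r + 1` terms more than `1 - 1/r`.

Idea: on every block `[2^j, 4^j]` the weights `1_S(d) / (d p(d))` are close to `1/d`, uniformly in all
frequencies (Chernoff and a union bound; the block is lacunary, so a constant number of elements of `S` per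
scale is enough).  The kernel of the block of multiples of `Q` only depends on `‖Q θ‖ / Q`; hence the average
number of pairs of `A` at distance `m d`, `d` in `S` a multiple of `Q`, is the one for `d` a multiple of `m Q`.
It increases with `Q` (for divisibility), and by pigeonhole over `Q = 60^i` it is the same for `m = 1, .., 5`, and at
least the square of the density.  Words without `r + 1` consecutive letters `1` satisfy a linear inequality
between their pair counts at distances `1, .., 5`, which gives the thresholds.
-/

set_option autoImplicit false

open Filter MeasureTheory ProbabilityTheory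

namespace Pool.Agent.Results.MP_24534d_co.RandomDifferences

/-- Put each `n` in `S` independently with probability `p n`, where `n * p n → ∞`.  Then almost surely, for every
`r ≥ 1`, every set of naturals whose upper density exceeds `2/5` if `r = 2`, `4/7` if `r = 3`, `2/3` if `r = 4` and
`1 - 1/r` otherwise, contains `a, a + d, .., a + r d` with some positive `d` in `S`. -/
theorem result :
    ∀ (Ω : Type) [MeasurableSpace Ω] (μ : Measure Ω) [IsProbabilityMeasure μ]
      (p : ℕ → ℝ) (E : ℕ → Set Ω),
      (∀ n, 0 ≤ p n ∧ p n ≤ 1) →
      Tendsto (fun n : ℕ => (n : ℝ) * p n) atTop atTop →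
      (∀ n, MeasurableSet (E n)) →
      iIndepSet E μ →
      (∀ n, μ (E n) = ENNReal.ofReal (p n)) →
      ∀ᵐ ω ∂μ, ∀ r : ℕ, 1 ≤ r → ∀ A : Set ℕ,
        (∃ ε : ℝ, 0 < ε ∧ ∃ᶠ N : ℕ in atTop,
          ((if r = 2 then 2 / 5 else if r = 3 then 4 / 7 else if r = 4 then 2 / 3 else 1 - 1 / (r : ℝ)) + ε)
            * (N : ℝ) < ((A ∩ Set.Iio N).ncard : ℝ)) →
        ∃ a d : ℕ, 0 < d ∧ ω ∈ E d ∧ ∀ i : ℕ, i ≤ r → a + i * d ∈ A := by
  intro Ω _ μ _ p E hp hpt hE hi hμ
  filter_upwards [Pool.Agent.RDf.main Ω μ p E hp hpt hE hi hμ] with ω hω r hr A hA
  exact hω r hr A (by simpa [Pool.Agent.RDf.tau] using hA)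

end Pool.Agent.Results.MP_24534d_co.RandomDifferences
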