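import Pool.Agent.RDf.Main

/-!
# Random sets of differences at the optimal sparsity: two colours

Put each `n` in `S` independently with probability `p n`, where `n * p n` tends to infinity.  Almost surely,
every colouring of the naturals with two colours has a monochromatic four term progression with difference in `S`.

See `RandomDifferences` for the correlation estimates; here the linear inequality is that of colourings without
monochromatic progression of difference `d`: with `e i = 1` or `-1` the colour of `x + i d`,
`(e 0 + e 1 + e 2 + e 3)^2 + (e 1 + e 2 + e 3 + e 4)^2 ≤ 6 + 2 e 0 e 4`.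
-/

set_option autoImplicit false

open Filter MeasureTheory ProbabilityTheory

namespace Pool.Agent.Results.MP_24534d_co.TwoColours

/-- Put each `n` in `S` independently with probability `p n`, where `n * p n → ∞`.  Then almost surely, for every
colouring of the naturals with two colours (`A` and its complement) there is a monochromatic progression
`a, a + d, a + 2 d, a + 3 d` with some positive `d` in `S`. -/
theorem result :
    ∀ (Ω : Type) [MeasurableSpace Ω] (μ : Measure Ω) [IsProbabilityMeasure μ]
      (p : ℕ → ℝ) (E : ℕ → Set Ω),
      (∀ n, 0 ≤ p n ∧ p n ≤ 1) →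
      Tendsto (fun n : ℕ => (n : ℝ) * p n) atTop atTop →
      (∀ n, MeasurableSet (E n)) →
      iIndepSet E μ →
      (∀ n, μ (E n) = ENNReal.ofReal (p n)) →
      ∀ᵐ ω ∂μ, ∀ A : Set ℕ,
        ∃ a d : ℕ, 0 < d ∧ ω ∈ E d ∧
          ((∀ i : ℕ, i ≤ 3 → a + i * d ∈ A) ∨ (∀ i : ℕ, i ≤ 3 → a + i * d ∉ A)) := by
  intro Ω _ μ _ p E hp hpt hE hi hμ
  exact Pool.Agent.RDf.mainCol Ω μ p E hp hpt hE hi hμ

end Pool.Agent.Results.MP_24534d_co.TwoColours
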